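import Pool.Agent.W399.WP.Stm

/-!
# Reduction of cancellative semigroups to cancellative monoids (part RED of project WP)
-/

set_option autoImplicit false

universe u

namespace Pool.Agent.W978.WP399

open Pool.Agent.W399.WP

section
variable {S : Type u} [Semigroup S] {A : Type} (φ : A → S)

/-- The right action of words. -/
def act (w : List A) (s : S) : S := w.foldl (fun s x => s * φ x) s

theorem act_append (v w : List A) (s : S) : act φ (v ++ w) s = act φ w (act φ v s) := by
  unfold act
  rw [List.foldl_append]

theorem fold_mul (w : List A) (s t : S) :
    w.foldl (fun s x => s * φ x) (s * t) = s * w.foldl (fun s x => s * φ x) t := by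
  induction w generalizing t with
  | nil => rfl
  | cons a w ih =>
    simp only [List.foldl_cons]
    rw [mul_assoc, ih]

theorem act_cons (a : A) (w : List A) (s : S) : act φ (a :: w) s = s * ev φ a w := by
  unfold act ev
  rw [List.foldl_cons, fold_mul]

variable [IsCancelMul S]

theorem act_inj (w : List A) {s t : S} (h : act φ w s = act φ w t) : s = t := by
  cases w with
  | nil => exact h
  | cons a w =>
    rw [act_cons, act_cons] at h
    exact mul_right_cancel h

theorem rel_iff (a b : A) (v w : List A) :
    (∀ s, act φ (a :: v) s = act φ (b :: w) s) ↔ ev φ a v = ev φ b w := by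
  constructor
  · intro h
    have := h (φ a)
    rw [act_cons, act_cons] at this
    exact mul_left_cancel this
  · intro h s
    rw [act_cons, act_cons, h]

/-- a nonempty word which fixes one element acts trivially -/
theorem fix {b : A} {w : List A} {t : S} (h : t = act φ (b :: w) t) (s : S) :
    s = act φ (b :: w) s := by
  rw [act_cons] at h ⊢
  have h1 : ∀ x : S, ev φ b w * x = x := by
    intro x
    have h2 : t * (ev φ b w * x) = t * x := by rw [← mul_assoc, ← h]
    exact mul_left_cancel h2
  have h3 : s * ev φ b w * s = s * s := by rw [mul_assoc, h1]
  exact (mul_right_cancel h3).symm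

theorem left_cancel {w u v : List A} (h : ∀ s, act φ (w ++ u) s = act φ (w ++ v) s) (s : S) :
    act φ u s = act φ v s := by
  have h1 : ∀ s, act φ u (act φ w s) = act φ v (act φ w s) := by
    intro s
    rw [← act_append, ← act_append]
    exact h s
  cases u with
  | nil =>
    cases v with
    | nil => rfl
    | cons b v => exact fix φ (h1 s) s
  | cons a u =>
    cases v with
    | nil => exact (fix φ (h1 s).symm s).symm
    | cons b v =>
      have h2 := h1 (φ a)
      rw [act_cons, act_cons] at h2
      exact (rel_iff φ a b u v).2 (mul_left_cancel h2) s

/-- The congruence on words. -/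
def con : Con (FreeMonoid A) where
  r := fun u v => ∀ s : S, act φ u.toList s = act φ v.toList s
  iseqv := ⟨fun _ _ => rfl, fun h s => (h s).symm, fun h h' s => (h s).trans (h' s)⟩
  mul' := by
    intro u v w x h h' s
    rw [FreeMonoid.toList_mul, FreeMonoid.toList_mul, act_append, act_append, h, h']

/-- The monoid of words modulo the action. -/
abbrev MM : Type := (con φ).Quotient

instance : CancelMonoid (MM φ) :=
  { (inferInstance : Monoid (MM φ)) with
    mul_left_cancel := by
      intro a b c
      induction a using Con.induction_on with | _ a
      induction b using Con.induction_on with | _ b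
      induction c using Con.induction_on with | _ c
      intro h
      apply (Con.eq _).2
      have h1 : ((a * b : FreeMonoid A) : MM φ) = ((a * c : FreeMonoid A) : MM φ) := h
      have h2 := (Con.eq _).1 h1
      intro s
      refine left_cancel φ (w := a.toList) (fun s => ?_) s
      exact h2 s
    mul_right_cancel := by
      intro a b c
      induction a using Con.induction_on with | _ a
      induction b using Con.induction_on with | _ b
      induction c using Con.induction_on with | _ c
      intro h
      apply (Con.eq _).2
      have h1 : ((b * a : FreeMonoid A) : MM φ) = ((c * a : FreeMonoid A) : MM φ) := h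
      have h2 := (Con.eq _).1 h1
      intro s
      have h3 := h2 s
      apply act_inj φ a.toList
      rw [← act_append, ← act_append]
      exact h3 }

/-- The generators. -/
def psi (a : A) : MM φ := ((FreeMonoid.of a : FreeMonoid A) : MM φ)

theorem pr_psi (l : List A) : pr (psi φ) l = ((FreeMonoid.ofList l : FreeMonoid A) : MM φ) := by
  induction l with
  | nil => rfl
  | cons a l ih =>
    rw [pr_cons, ih, FreeMonoid.ofList_cons]
    rfl

end

theorem red : ∀ (S : Type u) (_ : Semigroup S) (_ : IsCancelMul S) (A : Type) (_ : Finite A)
    (_ : Nonempty A) (φ : A → S),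
    ∃ (M : Type) (_ : CancelMonoid M) (ψ : A → M), (∀ m : M, ∃ l : List A, pr ψ l = m) ∧
      WordProblem φ = WPM ψ := by
  intro S _ _ A _ _ φ
  refine ⟨MM φ, inferInstance, psi φ, ?_, ?_⟩
  · intro m
    induction m using Con.induction_on with | _ m
    refine ⟨m.toList, ?_⟩
    rw [pr_psi, FreeMonoid.ofList_toList]
  · have key : ∀ (a b : A) (u v : List A), ev φ a u = ev φ b v ↔
        pr (psi φ) (a :: u) = pr (psi φ) (b :: v) := by
      intro a b u v
      rw [pr_psi, pr_psi, Con.eq, ← rel_iff]
      exact Iff.rfl
    ext w
    constructor
    · rintro ⟨a, b, u, v, h, rfl⟩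
      exact ⟨a :: u, b :: v, List.cons_ne_nil _ _, List.cons_ne_nil _ _, (key a b u v).1 h, rfl⟩
    · rintro ⟨u, v, hu, hv, h, rfl⟩
      cases u with
      | nil => exact absurd rfl hu
      | cons a u =>
        cases v with
        | nil => exact absurd rfl hv
        | cons b v => exact ⟨a, b, u, v, (key a b u v).2 h, rfl⟩

end Pool.Agent.W978.WP399
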